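import Pool.Agent.Helper78.LD10.Defs
import Pool.Agent.Helper55.LD8.FO2

/-!
# LD10, block FO10: one and two functionals of one class
-/

set_option autoImplicit false

namespace Pool.Agent.Helper55.LD10

open Set MeasureTheory
open Pool.Agent.Helper41.LD6 (Qs vq)
open Pool.Agent.Helper78.LD8 (Pm)
open Pool.Agent.Helper78.LD10

variable {F : Pm} {Q K : ℕ} {ℓst a ℓ x : ℝ} {u u' : ℕ × (Fin (F.d + 1) → ℕ)} {j j' : ℕ}

theorem mem_Qs (hu : u ∈ Is F Q K) : u.2 ∈ Qs F.d K := (Finset.mem_product.1 hu).2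

theorem fast_one (hF : F.Ok) (hK : F.Big K) (hN : F.NR K) (hℓ : 0 < ℓ) {p p' ϑ : ℝ} (hpq : p ≤ p') (hϑ : 0 < ϑ) (hV : ϑ ≤ F.V K ℓst j * ℓ)
    (hu : u ∈ Is F Q K) :
    |∫ x in p..p', G F Q K ℓst u j x| ≤ (1 / 2) ^ (11 * F.e K) * (p' - p) + 2 ^ (2 * F.E K) * ℓ / ϑ := by
  unfold G
  by_cases h : (F.n₀ K ℓst + j) % Q = u.1
  · simp only [if_pos h]
    exact Pool.Agent.Helper55.LD8.fast_one hF hK hN hℓ hpq hϑ hV (mem_Qs hu)
  · simp only [if_neg h, intervalIntegral.integral_zero, abs_zero]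
    have h0 : 0 ≤ p' - p := by linarith
    positivity

open Classical in
theorem fast_two (hF : F.Ok) (hK : F.Big K) (hN : F.NR K) (hℓ : 0 < ℓ) {ϑ : ℝ} (hϑ : 0 < ϑ) (hV : ϑ ≤ F.V K ℓst j * ℓ) (hV' : ϑ ≤ F.V K ℓst j' * ℓ)
    (hu : u ∈ Is F Q K) (hu' : u' ∈ Is F Q K) (hj : j < 2 ^ (2 * K)) (hj' : j' < 2 ^ (2 * K)) :
    |(∫ x in a..(a + ℓ), G F Q K ℓst u j x * G F Q K ℓst u' j' x) -
        ℓ * (if j = j' ∧ u = u' ∧ (F.n₀ K ℓst + j) % Q = u.1 then vq u.2 else 0)| ≤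
      ((1 / 2) ^ (11 * F.e K) + 2 ^ (2 * F.E K) / ϑ) * ℓ := by
  have h0 : 0 ≤ ((1 / 2) ^ (11 * F.e K) + 2 ^ (2 * F.E K) / ϑ) * ℓ := by positivity
  unfold G
  by_cases h : (F.n₀ K ℓst + j) % Q = u.1
  · by_cases h' : (F.n₀ K ℓst + j') % Q = u'.1
    · have h1 := Pool.Agent.Helper55.LD8.fast_two (a := a) hF hK hN hℓ hϑ hV hV' (mem_Qs hu) (mem_Qs hu') hj hj'
      have e2 : (j = j' ∧ u.2 = u'.2) ↔ (j = j' ∧ u = u' ∧ (F.n₀ K ℓst + j) % Q = u.1) := by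
        constructor
        · rintro ⟨h2, h3⟩
          exact ⟨h2, Prod.ext (by rw [← h, ← h', h2]) h3, h⟩
        · rintro ⟨h2, h3, -⟩
          exact ⟨h2, by rw [h3]⟩
      simp only [e2] at h1
      simp only [if_pos h, if_pos h']
      simp only [h, and_true] at h1 ⊢
      exact h1
    · have h4 : ¬ (j = j' ∧ u = u' ∧ (F.n₀ K ℓst + j) % Q = u.1) := by
        rintro ⟨h5, h6, h7⟩
        exact h' (by rw [← h5, ← h6]; exact h7)
      rw [if_neg h4]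
      simp only [if_neg h', mul_zero, intervalIntegral.integral_zero, sub_zero, abs_zero]
      exact h0
  · have h4 : ¬ (j = j' ∧ u = u' ∧ (F.n₀ K ℓst + j) % Q = u.1) := fun h5 => h h5.2.2
    rw [if_neg h4]
    simp only [if_neg h, zero_mul, intervalIntegral.integral_zero, mul_zero, sub_zero, abs_zero]
    exact h0

end Pool.Agent.Helper55.LD10
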